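import Mathlib
import Pool.Agent.H.MP_f3c5e4_al.Osc

set_option autoImplicit false

namespace Pool.Agent.Results.MP_f3c5e4_al.Q1

open Pool.Agent.H.MP_514792_al Pool.Agent.H.MP_f3c5e4_al

theorem result : ∃ (G : Type) (_ : Group G) (S : Finset G),
    Subgroup.closure (S : Set G) = ⊤ ∧
    (∀ g : G, g ≠ 1 → ∃ N : Subgroup G, N.Normal ∧ N.FiniteIndex ∧ g ∉ N) ∧
    ¬ Group.IsVirtuallyNilpotent G ∧
    (∃ C : ℕ, 0 < C ∧ ∀ n, rfGrowth S n ≤ C * n ^ C) ∧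
    ∀ α : ℝ, 0 < α → ¬ (Prec (fun n => rfGrowth S n) (fun n => (n : ℝ) ^ α) ∧
      Prec (fun n => (n : ℝ) ^ α) fun n => rfGrowth S n) :=
  ⟨_, inferInstance, gens d2 s2, gens_top _ _, rf (gens_top _ _) ups2, not_vn, poly,
    fun α _ => osc α⟩

end Pool.Agent.Results.MP_f3c5e4_al.Q1
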